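import Mathlib

set_option autoImplicit false

namespace Pool.Agent.Results.MP_01d095_an.SumLe

section Defs

variable (X : Type*) [NormedAddCommGroup X] [NormedSpace ℝ X]

/-- `Π(X)`: pairs `(x, x*)` of norm one with `x*(x) = 1`. -/
def Pairs : Set (X × StrongDual ℝ X) := {p | ‖p.1‖ = 1 ∧ ‖p.2‖ = 1 ∧ p.2 p.1 = 1}

variable {X} in
/-- The numerical radius. -/
noncomputable def radius (T : X →L[ℝ] X) : ℝ := sSup {r | ∃ p ∈ Pairs X, r = |p.2 (T p.1)|}

variable {X} in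
/-- The quotient norm `‖T + Z(X)‖`, where `Z(X)` consists of the operators of radius zero. -/
noncomputable def quotNorm (T : X →L[ℝ] X) : ℝ :=
  sInf {r | ∃ S : X →L[ℝ] X, radius S = 0 ∧ r = ‖T - S‖}

/-- The second numerical index. -/
noncomputable def index2 : ℝ :=
  sSup {k | 0 ≤ k ∧ ∀ T : X →L[ℝ] X, k * quotNorm T ≤ radius T}

end Defs

section Basic

variable {X : Type*} [NormedAddCommGroup X] [NormedSpace ℝ X]

theorem le_radius (T : X →L[ℝ] X) {p : X × StrongDual ℝ X} (hp : p ∈ Pairs X) :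
    |p.2 (T p.1)| ≤ radius T := by
  refine le_csSup ⟨‖T‖, ?_⟩ ⟨p, hp, rfl⟩
  rintro _ ⟨q, hq, rfl⟩
  have h1 := q.2.le_opNorm (T q.1)
  have h2 := T.le_opNorm q.1
  rw [hq.2.1, one_mul, Real.norm_eq_abs] at h1
  rw [hq.1, mul_one] at h2
  exact h1.trans h2

theorem radius_nonneg (T : X →L[ℝ] X) : 0 ≤ radius T :=
  Real.sSup_nonneg (by rintro _ ⟨q, -, rfl⟩; exact abs_nonneg _)

theorem radius_le (T : X →L[ℝ] X) {c : ℝ} (hc : 0 ≤ c)
    (h : ∀ p ∈ Pairs X, |p.2 (T p.1)| ≤ c) : radius T ≤ c :=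
  Real.sSup_le (by rintro _ ⟨q, hq, rfl⟩; exact h q hq) hc

theorem radius_zero : radius (0 : X →L[ℝ] X) = 0 :=
  le_antisymm (radius_le _ le_rfl fun p _ => by simp) (radius_nonneg _)

theorem le_quot (T : X →L[ℝ] X) {c : ℝ} (h : ∀ S : X →L[ℝ] X, radius S = 0 → c ≤ ‖T - S‖) :
    c ≤ quotNorm T :=
  le_csInf ⟨_, 0, radius_zero, rfl⟩ (by rintro _ ⟨S, hS, rfl⟩; exact h S hS)

theorem quot_le (T : X →L[ℝ] X) {S : X →L[ℝ] X} (hS : radius S = 0) : quotNorm T ≤ ‖T - S‖ :=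
  csInf_le ⟨0, by rintro _ ⟨S, -, rfl⟩; exact norm_nonneg _⟩ ⟨S, hS, rfl⟩

theorem bdd [Nontrivial X] :
    BddAbove {k : ℝ | 0 ≤ k ∧ ∀ T : X →L[ℝ] X, k * quotNorm T ≤ radius T} := by
  refine ⟨1, fun k hk => ?_⟩
  obtain ⟨x, hx⟩ := exists_norm_eq X zero_le_one
  obtain ⟨g, hg1, hg2⟩ := exists_dual_vector ℝ x (by rw [hx]; norm_num)
  have hp : (x, g) ∈ Pairs X := ⟨hx, hg1, by simpa [hx] using hg2⟩
  have h1 : radius (ContinuousLinearMap.id ℝ X) ≤ 1 :=
    radius_le _ zero_le_one fun p hp => by simp [hp.2.2]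
  have h2 : 1 ≤ quotNorm (ContinuousLinearMap.id ℝ X) := le_quot _ fun S hS => by
    have a1 := le_radius S hp
    have a2 := g.le_opNorm ((ContinuousLinearMap.id ℝ X - S) x)
    have a3 := (ContinuousLinearMap.id ℝ X - S).le_opNorm x
    rw [hS] at a1
    have a4 : g (S x) = 0 := abs_eq_zero.1 (le_antisymm a1 (abs_nonneg _))
    have a5 : g x = 1 := hp.2.2
    rw [hg1, one_mul] at a2
    rw [hx, mul_one] at a3
    simp only [ContinuousLinearMap.sub_apply, ContinuousLinearMap.id_apply, map_sub, a4, a5,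
      sub_zero, norm_one] at a2 a3
    exact a2.trans a3
  have h3 := hk.2 (ContinuousLinearMap.id ℝ X)
  nlinarith [hk.1]

theorem radius_hom (T : X →L[ℝ] X) (y : X) (f : StrongDual ℝ X) (h : f y = ‖f‖ * ‖y‖) :
    |f (T y)| ≤ radius T * (‖f‖ * ‖y‖) := by
  rcases eq_or_ne y 0 with rfl | hy
  · simp
  rcases eq_or_ne f 0 with rfl | hf
  · simp
  have h1 : 0 < ‖y‖ := norm_pos_iff.2 hy
  have h2 : 0 < ‖f‖ := norm_pos_iff.2 hf
  have h3 := le_radius T (p := (‖y‖⁻¹ • y, ‖f‖⁻¹ • f))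
    ⟨norm_smul_inv_norm hy, norm_smul_inv_norm hf, by
      simp only [ContinuousLinearMap.smul_apply, map_smul, smul_eq_mul, h]; field_simp⟩
  simp only [ContinuousLinearMap.smul_apply, map_smul, smul_eq_mul, abs_mul, abs_inv,
    abs_norm] at h3
  rw [← div_le_iff₀ (by positivity)]
  refine le_of_eq_of_le ?_ h3
  field_simp

theorem index_le {Y : Type*} [NormedAddCommGroup Y] [NormedSpace ℝ Y] [Nontrivial Y]
    (i : Y →L[ℝ] X) (P : X →L[ℝ] Y) (hi : ∀ y, ‖i y‖ = ‖y‖) (hP : ∀ x, ‖P x‖ ≤ ‖x‖)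
    (hPi : ∀ y, P (i y) = y)
    (hM : ∀ x y, ‖y‖ ≤ ‖P x‖ → ‖x - i (P x) + i y‖ ≤ ‖x‖) : index2 X ≤ index2 Y := by
  have hi1 : ‖i‖ ≤ 1 := i.opNorm_le_bound zero_le_one fun y => by rw [hi, one_mul]
  have hP1 : ‖P‖ ≤ 1 := P.opNorm_le_bound zero_le_one fun y => by rw [one_mul]; exact hP y
  refine csSup_le_csSup bdd ⟨0, le_rfl, fun T => by rw [zero_mul]; exact radius_nonneg T⟩ ?_
  rintro k ⟨hk0, hk⟩
  refine ⟨hk0, fun T => ?_⟩
  have h1 : quotNorm T ≤ quotNorm (i ∘L T ∘L P) := le_quot _ fun S hS => by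
    have a1 : radius (P ∘L S ∘L i) = 0 := by
      refine le_antisymm (radius_le _ le_rfl fun p hp => ?_) (radius_nonneg _)
      rw [← hS]
      have b1 : (p.2 ∘L P) (i p.1) = 1 := by
        rw [ContinuousLinearMap.comp_apply, hPi]; exact hp.2.2
      refine le_radius S (p := (i p.1, p.2 ∘L P)) ⟨(hi _).trans hp.1, le_antisymm ?_ ?_, b1⟩
      · refine (ContinuousLinearMap.opNorm_comp_le _ _).trans ?_
        rw [hp.2.1, one_mul]; exact hP1
      · have := (p.2 ∘L P).le_opNorm (i p.1)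
        rwa [b1, hi, hp.1, mul_one, norm_one] at this
    refine (quot_le T a1).trans (ContinuousLinearMap.opNorm_le_bound _ (norm_nonneg _) fun y => ?_)
    have a2 : (T - P ∘L S ∘L i) y = P ((i ∘L T ∘L P - S) (i y)) := by simp [hPi]
    rw [a2, ← hi y]
    exact (hP _).trans (ContinuousLinearMap.le_opNorm _ _)
  have h2 : radius (i ∘L T ∘L P) ≤ radius T := radius_le _ (radius_nonneg T) fun p hp => by
    have a1 : ‖p.2 ∘L i‖ ≤ 1 := (ContinuousLinearMap.opNorm_comp_le _ _).trans (by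
      rw [hp.2.1, one_mul]; exact hi1)
    have a2 : ‖P p.1‖ ≤ 1 := hp.1 ▸ hP p.1
    have a3 : ∀ y, ‖y‖ ≤ ‖P p.1‖ → p.2 (i y) ≤ p.2 (i (P p.1)) := fun y hy => by
      have b1 := p.2.le_opNorm (p.1 - i (P p.1) + i y)
      have b2 := hM p.1 y hy
      rw [hp.2.1, one_mul, map_add, map_sub, hp.2.2, Real.norm_eq_abs] at b1
      rw [hp.1] at b2
      linarith [le_abs_self (1 - p.2 (i (P p.1)) + p.2 (i y))]
    have a4 : (p.2 ∘L i) (P p.1) = ‖p.2 ∘L i‖ * ‖P p.1‖ := by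
      refine le_antisymm ((le_abs_self _).trans ((p.2 ∘L i).le_opNorm _)) ?_
      rcases (norm_nonneg (P p.1)).eq_or_lt with h0 | h0
      · rw [← h0, norm_eq_zero.1 h0.symm]; simp
      · rw [← le_div_iff₀ h0]
        have b0 : 0 ≤ p.2 (i (P p.1)) := by simpa using a3 0 (by simp)
        refine ContinuousLinearMap.opNorm_le_of_unit_norm (div_nonneg b0 h0.le) fun y hy => ?_
        have b1 := a3 (‖P p.1‖ • y) (by rw [norm_smul, hy]; simp)
        have b2 := a3 (-(‖P p.1‖ • y)) (by rw [norm_neg, norm_smul, hy]; simp)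
        simp only [map_neg, map_smul, smul_eq_mul] at b1 b2
        rw [le_div_iff₀ h0, Real.norm_eq_abs]
        simp only [ContinuousLinearMap.comp_apply]
        rcases abs_cases (p.2 (i y)) with h | h <;> rw [h.1] <;> linarith
    have a5 := radius_hom T (P p.1) (p.2 ∘L i) a4
    have a6 : ‖p.2 ∘L i‖ * ‖P p.1‖ ≤ 1 := mul_le_one₀ a1 (norm_nonneg _) a2
    exact a5.trans (mul_le_of_le_one_right (radius_nonneg T) a6)
  exact (mul_le_mul_of_nonneg_left h1 hk0).trans ((hk _).trans h2)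

end Basic

theorem result (Y W : Type*) [NormedAddCommGroup Y] [NormedSpace ℝ Y] [CompleteSpace Y]
    [Nontrivial Y] [NormedAddCommGroup W] [NormedSpace ℝ W] [CompleteSpace W] [Nontrivial W] :
    index2 (WithLp 2 (Y × W)) ≤ min (index2 Y) (index2 W) := by
  refine le_min (index_le ((WithLp.prodContinuousLinearEquiv 2 ℝ Y W).symm.toContinuousLinearMap
      ∘L ContinuousLinearMap.inl ℝ Y W) (WithLp.fstL 2 ℝ Y W) (fun y => ?_) (fun x => ?_)
      (fun y => rfl) fun x y h => ?_)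
    (index_le ((WithLp.prodContinuousLinearEquiv 2 ℝ Y W).symm.toContinuousLinearMap
      ∘L ContinuousLinearMap.inr ℝ Y W) (WithLp.sndL 2 ℝ Y W) (fun y => ?_) (fun x => ?_)
      (fun y => rfl) fun x y h => ?_)
  · exact WithLp.norm_toLp_fst 2 Y W y
  · exact WithLp.norm_fst_le Y x
  · refine (pow_le_pow_iff_left₀ (norm_nonneg _) (norm_nonneg _) two_ne_zero).1 ?_
    rw [WithLp.prod_norm_sq_eq_of_L2, WithLp.prod_norm_sq_eq_of_L2]
    have := pow_le_pow_left₀ (norm_nonneg _) h 2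
    simpa using this
  · exact WithLp.norm_toLp_snd 2 Y W y
  · exact WithLp.norm_snd_le Y x
  · refine (pow_le_pow_iff_left₀ (norm_nonneg _) (norm_nonneg _) two_ne_zero).1 ?_
    rw [WithLp.prod_norm_sq_eq_of_L2, WithLp.prod_norm_sq_eq_of_L2]
    have := pow_le_pow_left₀ (norm_nonneg _) h 2
    simpa using this

end Pool.Agent.Results.MP_01d095_an.SumLe
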